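import Pool.Agent.Q51.SE.Stm
import Pool.Agent.Q239.EL.SD

set_option autoImplicit false

/-! Project SE (helper51), JOB CHQ: changing the representative. -/

open Polynomial NumberField IsDedekindDomain
open Pool.Agent.Q51.EL (Abv Setup)
open Pool.Agent.Q51.SE

namespace Pool.Agent.Q65.SE

/-- a rational number is a power of `l` times a fraction prime to `l` -/
theorem rat_split {l : ℕ} (hl : l.Prime) {c : ℚ} (hc : c ≠ 0) : ∃ (k : ℤ) (a b : ℤ),
    ¬ (l : ℤ) ∣ a ∧ ¬ (l : ℤ) ∣ b ∧ c = (l : ℚ) ^ k * a / b := by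
  have hnum : c.num.natAbs ≠ 0 := Int.natAbs_ne_zero.2 (Rat.num_ne_zero.2 hc)
  obtain ⟨i, a0, ha0, hi⟩ := Nat.exists_eq_pow_mul_and_not_dvd hnum l hl.ne_one
  obtain ⟨j, b0, hb0, hj⟩ := Nat.exists_eq_pow_mul_and_not_dvd c.den_nz l hl.ne_one
  have hl0 : (l : ℚ) ≠ 0 := by exact_mod_cast hl.ne_zero
  have hb00 : (b0 : ℚ) ≠ 0 := by
    intro h
    have : b0 = 0 := by exact_mod_cast h
    exact hb0 (this ▸ dvd_zero _)
  have hden : (c.den : ℚ) = (l : ℚ) ^ j * b0 := by exact_mod_cast hj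
  rcases Int.natAbs_eq c.num with h | h
  · refine ⟨(i : ℤ) - j, a0, b0, by exact_mod_cast ha0, by exact_mod_cast hb0, ?_⟩
    have hnum' : (c.num : ℚ) = (l : ℚ) ^ i * a0 := by
      rw [h, hi]
      push_cast
      rfl
    rw [← Rat.num_div_den c, hnum', hden, zpow_sub₀ hl0, zpow_natCast, zpow_natCast]
    push_cast
    field_simp
  · refine ⟨(i : ℤ) - j, -a0, b0, fun h' => ha0 ?_, by exact_mod_cast hb0, ?_⟩
    · rw [dvd_neg] at h'
      exact_mod_cast h'
    have hnum' : (c.num : ℚ) = -((l : ℚ) ^ i * a0) := by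
      rw [h, hi]
      push_cast
      rfl
    rw [← Rat.num_div_den c, hnum', hden, zpow_sub₀ hl0, zpow_natCast, zpow_natCast]
    push_cast
    field_simp

theorem chq : S_CHQ := by
  intro L _ _ θ q l hq hl hvl δ ζ η c K hδ hζ hc hN
  have : Fact l.Prime := ⟨hl⟩
  obtain ⟨x, w, e, g, he, hxw, hval⟩ := hN
  obtain ⟨k, a, b, ha, hb, hcab⟩ := rat_split hl hc
  have hlL : (l : L) ≠ 0 := by exact_mod_cast hl.ne_zero
  have hbL : (b : L) ≠ 0 := by
    intro h
    have : b = 0 := by exact_mod_cast h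
    exact hb (this ▸ dvd_zero _)
  have hq0 : (0 : ℤ) < q := by exact_mod_cast (by omega : 0 < q)
  have hlp : Prime (l : ℤ) := Nat.prime_iff_prime_int.mp hl
  -- the new exponent
  have hmod0 : 0 ≤ ((e : ℤ) + k) % q := Int.emod_nonneg _ hq0.ne'
  have hmod1 : ((e : ℤ) + k) % q < q := Int.emod_lt_of_pos _ hq0
  have hmod2 := Int.emod_add_mul_ediv ((e : ℤ) + k) q
  obtain ⟨e', he'⟩ := Int.eq_ofNat_of_zero_le hmod0
  set j : ℤ := ((e : ℤ) + k) / q with hj
  have hkq : k - q * j = (e' : ℤ) - e := by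
    rw [he'] at hmod2
    linarith
  have hA : ¬ (l : ℤ) ∣ a * b ^ (q - 1) := by
    intro h
    rcases hlp.dvd_or_dvd h with h | h
    · exact ha h
    · exact hb (hlp.dvd_of_dvd_pow h)
  refine ⟨a * b ^ (q - 1) * x, a * b ^ (q - 1) * w, e', (b : L) * (l : L) ^ (-j) * g / ζ, ?_, ?_, ?_⟩
  · rw [he'] at hmod1
    exact_mod_cast hmod1
  · rcases hxw with h | h
    · left
      intro h'
      rcases hlp.dvd_or_dvd h' with h' | h'
      · exact hA h'
      · exact h h'
    · right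
      intro h'
      rcases hlp.dvd_or_dvd h' with h' | h'
      · exact hA h'
      · exact h h'
  intro v hv
  have hcL : (c : L) = (l : L) ^ k * a / b := by
    rw [hcab]
    push_cast
    rfl
  have hbq : (b : L) ^ q = (b : L) ^ (q - 1) * b := by
    rw [← pow_succ]
    congr 1
    omega
  have hlq : ((l : L) ^ (-j)) ^ q = (l : L) ^ (-(q * j)) := by
    rw [← zpow_natCast, ← zpow_mul]
    congr 1
    ring
  have hle : (l : L) ^ e' = (l : L) ^ (k - q * j) * (l : L) ^ e := by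
    rw [hkq, zpow_sub₀ hlL, zpow_natCast, zpow_natCast]
    field_simp
  have hkey : (l : L) ^ e' * (((a * b ^ (q - 1) * x : ℤ) : L) - ((a * b ^ (q - 1) * w : ℤ) : L) * θ) -
      (c : L) * δ * ζ ^ q * ((b : L) * (l : L) ^ (-j) * g / ζ) ^ q * η =
      (l : L) ^ (k - q * j) * ((a * b ^ (q - 1) : ℤ) : L) *
        ((l : L) ^ e * ((x : L) - w * θ) - δ * g ^ q * η) := by
    rw [hle, hcL, div_pow, mul_pow, mul_pow, hlq, hbq]
    have h1 : (l : L) ^ (k - q * j) = (l : L) ^ k * (l : L) ^ (-(q * j)) := by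
      rw [← zpow_add₀ hlL]
      congr 1
    rw [h1]
    push_cast
    field_simp
  rw [hkey, map_mul, map_mul]
  have h1 : v.valuation L ((l : L) ^ (k - q * j)) = WithZero.exp (-(k - q * j)) := by
    rw [map_zpow₀, hvl v hv, ← WithZero.exp_zsmul]
    congr 1
    simp
  rw [h1]
  calc WithZero.exp (-(k - q * j)) * v.valuation L ((a * b ^ (q - 1) : ℤ) : L) *
        v.valuation L ((l : L) ^ e * ((x : L) - w * θ) - δ * g ^ q * η)
      ≤ WithZero.exp (-(k - q * j)) * 1 * WithZero.exp (-((K + q : ℕ) : ℤ)) :=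
        mul_le_mul' (mul_le_mul' le_rfl (Pool.Agent.Q239.EL.val_int_le _)) (hval v hv)
    _ = WithZero.exp (-(k - q * j) + -((K + q : ℕ) : ℤ)) := by
        rw [mul_one, WithZero.exp_add]
    _ ≤ WithZero.exp (-(K : ℤ)) := by
        rw [WithZero.exp_le_exp, hkq]
        push_cast
        omega

end Pool.Agent.Q65.SE
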