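import Pool.Agent.Q51.SE.Stm
import Pool.Agent.Q239.EL.AP

set_option autoImplicit false

/-! Project SE (helper51), JOB APQ: approximation by elements of `L`. -/

open Polynomial NumberField IsDedekindDomain
open Pool.Agent.Q51.EL (Abv Setup)
open Pool.Agent.Q51.SE
open Pool.Agent.Q239.EL

namespace Pool.Agent.Q65.SE

section small

variable {l : ℕ} [hl : Fact l.Prime]

theorem sm_one : Sm 1 (1 : ℚ_[l][X]) := by
  have h := Sm.C (l := l) (r := 1) (a := 1) (by rw [norm_one])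
  rwa [map_one] at h

theorem sm_pow {r : ℝ} (hr : 0 ≤ r) {P : ℚ_[l][X]} (hP : Sm r P) (n : ℕ) : Sm (r ^ n) (P ^ n) := by
  induction n with
  | zero =>
    rw [pow_zero, pow_zero]
    exact sm_one
  | succ n ih =>
    rw [pow_succ, pow_succ]
    exact Sm.mul (pow_nonneg hr n) hr ih hP

theorem sm_powsub {r ε : ℝ} (hr : 1 ≤ r) (hε : 0 ≤ ε) {P Q : ℚ_[l][X]} (hP : Sm r P) (hQ : Sm r Q)
    (h : Sm ε (P - Q)) (n : ℕ) : Sm (ε * r ^ n) (P ^ n - Q ^ n) := by
  have hr0 : 0 ≤ r := by linarith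
  induction n with
  | zero =>
    rw [pow_zero, pow_zero, pow_zero, sub_self]
    intro i
    rw [coeff_zero, norm_zero]
    positivity
  | succ n ih =>
    have e : P ^ (n + 1) - Q ^ (n + 1) = P ^ n * (P - Q) + (P ^ n - Q ^ n) * Q := by ring
    rw [e]
    refine Sm.add ?_ ?_
    · refine (Sm.mul (pow_nonneg hr0 n) hε (sm_pow hr0 hP n) h).mono ?_
      rw [pow_succ, mul_comm]
      apply mul_le_mul_of_nonneg_left _ hε
      have h1 : 0 ≤ r ^ n := pow_nonneg hr0 n
      nlinarith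
    · have h1 := Sm.mul (by positivity) hr0 ih hQ
      rwa [mul_assoc, ← pow_succ] at h1

theorem sm_intpoly (h : ℤ_[l][X]) : Sm 1 (h.map (algebraMap ℤ_[l] ℚ_[l])) := by
  intro i
  rw [coeff_map]
  exact PadicInt.norm_le_one _

theorem sm_f (f : ℤ[X]) : Sm 1 (f.map (Int.castRingHom ℚ_[l])) := by
  intro i
  rw [coeff_map]
  exact Padic.norm_int_le_one _

end small

theorem apq : S_APQ := by
  intro f L _ _ θ hs q hq l hl ha d x w g1 h h' hxw hdvd hdvd' K
  obtain ⟨s, hs0⟩ := hdvd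
  obtain ⟨s', hs'⟩ := hdvd'
  obtain ⟨k, x0, w0, hx0, hw0, hunit⟩ := normalize hxw
  have hl0 : (l : ℚ_[l]) ≠ 0 := by exact_mod_cast hl.out.ne_zero
  have hlR : (0 : ℝ) < l := by exact_mod_cast hl.out.pos
  have hlR1 : (1 : ℝ) < l := by exact_mod_cast hl.out.one_lt
  have hqz : (0 : ℤ) < q := by exact_mod_cast hq
  have hroot : aeval θ (f.map (Int.castRingHom ℚ)) = 0 := by
    have := hs.root
    rw [← this]
    exact aeval_map_algebraMap ℚ θ f
  have hfmap : (f.map (Int.castRingHom ℚ)).map (Rat.castHom ℚ_[l]) = f.map (Int.castRingHom ℚ_[l]) := by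
    rw [Polynomial.map_map]
    congr 1
  -- the exponent
  obtain ⟨e, k', he, hk⟩ : ∃ (e : ℕ) (k' : ℤ), e < q ∧ k = e + q * k' := by
    have h1 := Int.emod_nonneg k hqz.ne'
    have h2 := Int.emod_lt_of_pos k hqz
    have h3 := Int.emod_add_mul_ediv k q
    refine ⟨(k % q).toNat, k / q, ?_, ?_⟩
    · omega
    · rw [Int.toNat_of_nonneg h1]
      exact h3.symm
  set u : ℚ_[l] := (l : ℚ_[l]) ^ (-k') with hu
  set fl := f.map (Int.castRingHom ℚ_[l]) with hfl
  set dl := d.map (Rat.castHom ℚ_[l]) with hdl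
  set hh := h.map (algebraMap ℤ_[l] ℚ_[l]) with hhh
  set hh' := h'.map (algebraMap ℤ_[l] ℚ_[l]) with hhh'
  have hprod : (h * h').map (algebraMap ℤ_[l] ℚ_[l]) = hh * hh' := by
    rw [Polynomial.map_mul]
  rw [hprod] at hs'
  have hlk : (l : ℚ_[l]) ^ k * u ^ q = (l : ℚ_[l]) ^ e := by
    rw [hu, hk, ← zpow_natCast ((l : ℚ_[l]) ^ (-k')) q, ← zpow_mul, ← zpow_add₀ hl0,
      ← zpow_natCast (l : ℚ_[l]) e]
    congr 1
    ring
  have h1 : C ((l : ℚ_[l]) ^ e) * (C (x0 : ℚ_[l]) - C (w0 : ℚ_[l]) * X) - dl * (C u * g1) ^ q * hh =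
      fl * (C (u ^ q) * s) := by
    calc C ((l : ℚ_[l]) ^ e) * (C (x0 : ℚ_[l]) - C (w0 : ℚ_[l]) * X) - dl * (C u * g1) ^ q * hh
        = C (u ^ q) * (C x - C w * X - dl * g1 ^ q * hh) := by
          rw [← hlk, hx0, hw0]
          simp only [map_mul, map_pow]
          ring
      _ = _ := by
          rw [hs0]
          ring
  set g' := C u * g1 with hg'
  set s1 := C (u ^ q) * s with hs1
  obtain ⟨rd, hrd1, hrd⟩ := sm_exists dl
  obtain ⟨rg, hrg1, hrg⟩ := sm_exists g'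
  have hrg0 : 0 ≤ rg := by linarith
  have hlK : (0 : ℝ) < ((l : ℝ) ^ K)⁻¹ := inv_pos.mpr (pow_pos hlR K)
  have hR1 : 1 ≤ rg ^ q := one_le_pow₀ hrg1
  set ε : ℝ := min ((l : ℝ)⁻¹) (((l : ℝ) ^ K)⁻¹ / (rd * rg ^ q)) with hε
  have hrr : 0 < rd * rg ^ q := by positivity
  have hε0 : 0 < ε := lt_min (inv_pos.mpr hlR) (div_pos hlK hrr)
  have hεl : ε ≤ (l : ℝ)⁻¹ := min_le_left _ _
  have hε1 : ε ≤ 1 := hεl.trans (inv_lt_one_of_one_lt₀ hlR1).le
  have hε2 : rd * (ε * rg ^ q) ≤ ((l : ℝ) ^ K)⁻¹ := by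
    have h2 : ε ≤ ((l : ℝ) ^ K)⁻¹ / (rd * rg ^ q) := min_le_right _ _
    rw [le_div_iff₀ hrr] at h2
    linarith
  obtain ⟨G, hG⟩ := sm_approx g' hε0
  obtain ⟨S, hS⟩ := sm_approx s1 hlK
  obtain ⟨S', hS'⟩ := sm_approx s' (inv_pos.mpr hlR)
  obtain ⟨H, hH, hH1⟩ : ∃ H : ℚ[X], Sm ε (hh - H.map (Rat.castHom ℚ_[l])) ∧ (h = 1 → H = 1) := by
    by_cases h2 : h = 1
    · refine ⟨1, ?_, fun _ => rfl⟩
      rw [hhh, h2, Polynomial.map_one, Polynomial.map_one, sub_self]
      intro i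
      rw [coeff_zero, norm_zero]
      exact hε0.le
    · obtain ⟨H, hH⟩ := sm_approx hh hε0
      exact ⟨H, hH, fun h3 => absurd h3 h2⟩
  obtain ⟨H', hH'⟩ := sm_approx hh' hε0
  have hhs := sm_intpoly h
  have hhs' := sm_intpoly h'
  rw [← hhh] at hhs
  rw [← hhh'] at hhs'
  have hHs : Sm 1 (H.map (Rat.castHom ℚ_[l])) := by
    have e1 : H.map (Rat.castHom ℚ_[l]) = hh - (hh - H.map (Rat.castHom ℚ_[l])) := by ring
    rw [e1]
    exact hhs.sub (hH.mono hε1)
  have hHs' : Sm 1 (H'.map (Rat.castHom ℚ_[l])) := by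
    have e1 : H'.map (Rat.castHom ℚ_[l]) = hh' - (hh' - H'.map (Rat.castHom ℚ_[l])) := by ring
    rw [e1]
    exact hhs'.sub (hH'.mono hε1)
  have hGs : Sm rg (G.map (Rat.castHom ℚ_[l])) := by
    have e1 : G.map (Rat.castHom ℚ_[l]) = g' - (g' - G.map (Rat.castHom ℚ_[l])) := by ring
    rw [e1]
    exact hrg.sub (hG.mono (hε1.trans hrg1))
  obtain ⟨x1, hx1, hx1'⟩ := int_approx x0 (K + 1)
  obtain ⟨w1, hw1, hw1'⟩ := int_approx w0 (K + 1)
  refine ⟨aeval θ H, fun v hv => ?_, fun h2 => ?_, x1, w1, e, aeval θ G, he, ?_, fun v hv => ?_⟩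
  · -- `η` is a unit at `v`
    have hvθ := val_theta hs hv ha
    have v1 : v.valuation L (aeval θ H) ≤ 1 := by
      have h2 := val_aeval (K := 0) hvθ hv (E := H) (by rw [pow_zero, inv_one]; exact hHs)
      simpa using h2
    have v2 : v.valuation L (aeval θ H') ≤ 1 := by
      have h2 := val_aeval (K := 0) hvθ hv (E := H') (by rw [pow_zero, inv_one]; exact hHs')
      simpa using h2
    set E' : ℚ[X] := H * H' - 1 - f.map (Int.castRingHom ℚ) * S' with hE'
    have hE'θ : aeval θ E' = aeval θ H * aeval θ H' - 1 := by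
      rw [hE']
      simp only [map_sub, map_mul, hroot, zero_mul, sub_zero, map_one]
    have v3 : v.valuation L (aeval θ E') ≤ WithZero.exp (-((1 : ℕ) : ℤ)) := by
      apply val_aeval hvθ hv
      rw [pow_one]
      have hmap : E'.map (Rat.castHom ℚ_[l]) =
          (-((hh - H.map (Rat.castHom ℚ_[l])) * hh' +
            H.map (Rat.castHom ℚ_[l]) * (hh' - H'.map (Rat.castHom ℚ_[l])))) +
          fl * (s' - S'.map (Rat.castHom ℚ_[l])) := by
        rw [hE']
        simp only [Polynomial.map_sub, Polynomial.map_mul, Polynomial.map_one, hfmap]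
        linear_combination hs'
      rw [hmap]
      refine Sm.add (Sm.neg (Sm.add ?_ ?_)) ?_
      · have h2 := Sm.mul hε0.le zero_le_one hH hhs'
        rw [mul_one] at h2
        exact h2.mono hεl
      · have h2 := Sm.mul zero_le_one hε0.le hHs hH'
        rw [one_mul] at h2
        exact h2.mono hεl
      · have h2 := Sm.mul zero_le_one (inv_pos.mpr hlR).le (sm_f f) hS'
        rw [one_mul] at h2
        exact h2
    rw [hE'θ] at v3
    have v4 : v.valuation L (aeval θ H * aeval θ H') = 1 := by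
      have h2 : aeval θ H * aeval θ H' = 1 + (aeval θ H * aeval θ H' - 1) := by ring
      rw [h2, Valuation.map_add_eq_of_lt_left, map_one]
      rw [map_one]
      refine lt_of_le_of_lt v3 ?_
      rw [← WithZero.exp_zero, WithZero.exp_lt_exp]
      norm_num
    rw [map_mul] at v4
    by_contra hne
    have h3 : v.valuation L (aeval θ H) < 1 := lt_of_le_of_ne v1 hne
    have h4 : v.valuation L (aeval θ H) * v.valuation L (aeval θ H') < 1 :=
      mul_lt_one_of_lt_of_le h3 v2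
    rw [v4] at h4
    exact lt_irrefl _ h4
  · rw [hH1 h2, map_one]
  · rcases hunit with h2 | h2
    · exact Or.inl (hx1' h2 (Nat.succ_pos K))
    · exact Or.inr (hw1' h2 (Nat.succ_pos K))
  · have hKK : ((l : ℝ) ^ (K + 1))⁻¹ ≤ ((l : ℝ) ^ K)⁻¹ := by
      apply inv_anti₀ (pow_pos hlR K)
      exact pow_le_pow_right₀ (by exact_mod_cast hl.out.one_lt.le) (Nat.le_succ K)
    set E : ℚ[X] := C ((l : ℚ) ^ e) * (C (x1 : ℚ) - C (w1 : ℚ) * X) - d * G ^ q * H -
      f.map (Int.castRingHom ℚ) * S with hE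
    have hEθ : aeval θ E = (l : L) ^ e * ((x1 : L) - w1 * θ) - aeval θ d * aeval θ G ^ q * aeval θ H := by
      rw [hE]
      simp only [map_sub, map_mul, map_pow, aeval_C, aeval_X, hroot, zero_mul, sub_zero, map_natCast,
        map_intCast]
    rw [← hEθ]
    apply val_aeval (val_theta hs hv ha) hv
    have hmap : E.map (Rat.castHom ℚ_[l]) =
        C ((l : ℚ_[l]) ^ e) * (C ((x1 : ℚ_[l]) - x0) - C ((w1 : ℚ_[l]) - w0) * X) +
        (dl * ((g' ^ q - (G.map (Rat.castHom ℚ_[l])) ^ q) * hh +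
          (G.map (Rat.castHom ℚ_[l])) ^ q * (hh - H.map (Rat.castHom ℚ_[l]))) +
        fl * (s1 - S.map (Rat.castHom ℚ_[l]))) := by
      rw [hE]
      simp only [Polynomial.map_sub, Polynomial.map_mul, Polynomial.map_pow, map_C, map_X, hfmap,
        map_pow, map_natCast, map_intCast, map_sub, Polynomial.map_natCast,
        Polynomial.map_intCast]
      have h5 : (dl * g' ^ q * hh + fl * s1 : ℚ_[l][X]) =
          C ((l : ℚ_[l]) ^ e) * (C (x0 : ℚ_[l]) - C (w0 : ℚ_[l]) * X) := by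
        rw [← h1]; ring
      simp only [map_pow, map_natCast] at h5
      linear_combination -h5
    rw [hmap]
    have hX : ∀ {a b : ℚ_[l]} {r : ℝ}, ‖a‖ ≤ r → ‖b‖ ≤ r → 0 ≤ r → Sm r (C a - C b * X) := by
      intro a b r h2 h3 h4
      refine (Sm.C h2).sub ?_
      have := Sm.mul h4 zero_le_one (Sm.C h3) Sm.X
      rwa [mul_one] at this
    have hle1 : ‖(l : ℚ_[l]) ^ e‖ ≤ 1 := by
      rw [norm_pow]
      exact pow_le_one₀ (norm_nonneg _) (Padic.norm_p_lt_one).le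
    refine Sm.add ?_ (Sm.add ?_ ?_)
    · have h2 := Sm.mul zero_le_one hlK.le (Sm.C hle1) (hX
        (a := (x1 : ℚ_[l]) - x0) (b := (w1 : ℚ_[l]) - w0)
        (by rw [norm_sub_rev]; exact hx1.trans hKK) (by rw [norm_sub_rev]; exact hw1.trans hKK)
        hlK.le)
      rwa [one_mul] at h2
    · have h2 : Sm (ε * rg ^ q) ((g' ^ q - (G.map (Rat.castHom ℚ_[l])) ^ q) * hh) := by
        have h3 := Sm.mul (by positivity) zero_le_one
          (sm_powsub hrg1 hε0.le hrg hGs hG q) hhs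
        rwa [mul_one] at h3
      have h3 : Sm (ε * rg ^ q) ((G.map (Rat.castHom ℚ_[l])) ^ q * (hh - H.map (Rat.castHom ℚ_[l]))) := by
        have h4 := Sm.mul (by positivity) hε0.le (sm_pow hrg0 hGs q) hH
        rwa [mul_comm] at h4
      exact (Sm.mul (by linarith) (by positivity) hrd (h2.add h3)).mono hε2
    · have h3 := Sm.mul zero_le_one hlK.le (sm_f f) hS
      rwa [one_mul] at h3

end Pool.Agent.Q65.SE
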