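import Pool.Agent.Q51.SE.Stm
import Pool.Agent.Q239.EL.SD
import Pool.Agent.Q91.EL.Small

set_option autoImplicit false

/-! Project SE (helper51), JOB SCQ: valuations modulo `q` of `δ` at the primes above `l`. -/

open Polynomial NumberField IsDedekindDomain
open Pool.Agent.Q51.EL (Abv Setup S_ROOT S_RAM)
open Pool.Agent.Q51.SE
open Pool.Agent.Q239.EL (val_exp val_close)

namespace Pool.Agent.Q65.SE

section

variable {L : Type} [Field L] [NumberField L] {v : HeightOneSpectrum (𝓞 L)}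

theorem parq_congr {q : ℕ} {x : L} {e e' : ℤ} (h : Parq q v x e) (he : (q : ℤ) ∣ e - e') :
    Parq q v x e' := by
  obtain ⟨k, hk⟩ := h
  obtain ⟨m, hm⟩ := he
  refine ⟨k + m, ?_⟩
  rw [hk]
  congr 1
  linear_combination -hm

/-- the main computation at a place where `x - w θ` is a unit -/
theorem at_unit {l q : ℕ} {δ g η z : L} {e : ℕ} (he : e < q)
    (hl : v.valuation L (l : L) = WithZero.exp (-1 : ℤ)) (hz : v.valuation L z = 1)
    (hη : v.valuation L η = 1)
    (h : v.valuation L ((l : L) ^ e * z - δ * g ^ q * η) ≤ WithZero.exp (-(q : ℤ))) :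
    v.valuation L (δ * g ^ q) = WithZero.exp (-(e : ℤ)) := by
  have h1 : v.valuation L ((l : L) ^ e * z) = WithZero.exp (-(e : ℤ)) := by
    rw [map_mul, map_pow, hl, hz, mul_one, ← WithZero.exp_nsmul]
    congr 1
    simp
  have h2 : v.valuation L (δ * g ^ q * η) = WithZero.exp (-(e : ℤ)) := by
    rw [← h1]
    apply val_close h
    rw [h1, WithZero.exp_lt_exp]
    omega
  rw [map_mul, hη, mul_one] at h2
  exact h2

theorem parq_of_val {q : ℕ} (hq : q ≠ 0) {δ g : L} {e : ℤ} (hδ : δ ≠ 0)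
    (h : v.valuation L (δ * g ^ q) = WithZero.exp (-e)) : Parq q v δ e := by
  have hg : g ≠ 0 := by
    rintro rfl
    rw [zero_pow hq, mul_zero, map_zero] at h
    exact WithZero.exp_ne_zero h.symm
  obtain ⟨m, hm⟩ := val_exp (v := v) hg
  obtain ⟨d, hd⟩ := val_exp (v := v) hδ
  rw [map_mul, map_pow, hm, hd, ← WithZero.exp_nsmul, ← WithZero.exp_add, WithZero.exp_inj] at h
  refine ⟨m, ?_⟩
  rw [hd]
  congr 1
  simp at h
  linarith

end

theorem scq (hnv : S_NVQ) : S_SCQ := by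
  intro f L _ _ θ hs q hq hqn
  obtain ⟨B0, hB0, hB0a, hB0'⟩ := Pool.Agent.Q239.EL.root Pool.Agent.Q91.EL.ram f L θ hs
  obtain ⟨⟨B1, hB1, hB1'⟩, -⟩ := Pool.Agent.Q91.EL.ram L
  refine ⟨B0 * B1, mul_ne_zero hB0 hB1, ?_⟩
  intro l hl hlB δ D hd hD hpar ⟨η, hη, hnear⟩
  have hl0 : ¬ l ∣ B0 := fun h => hlB (Dvd.dvd.mul_right h _)
  have hl1 : ¬ l ∣ B1 := fun h => hlB (Dvd.dvd.mul_left h _)
  obtain ⟨hθ, hxw⟩ := hB0' l hl hl0
  have hsqf := hB1' l hl hl1
  have : Fact l.Prime := ⟨hl⟩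
  obtain ⟨x, w, e, g, he, hxw1, hval⟩ := hnear
  have hn : q ∣ Module.finrank ℚ L := by rw [hs.deg]; exact hqn
  have hnv' := hnv L q hq hn l hl hsqf δ hd
  have hD0 : D ≠ 0 := hD.ne_zero
  have hvD0 : ¬ (l : ℤ) ∣ D → padicValInt l D = 0 := fun h => padicValInt.eq_zero_of_not_dvd h
  have hvD1 : (l : ℤ) ∣ D → padicValInt l D = 1 := by
    rintro ⟨z, rfl⟩
    have hz0 : z ≠ 0 := right_ne_zero_of_mul hD0
    have hzl : ¬ (l : ℤ) ∣ z := by
      intro h
      have h1 := hD l (mul_dvd_mul_left _ h)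
      exact (Nat.prime_iff_prime_int.mp hl).not_isUnit h1
    rw [padicValInt.mul (by exact_mod_cast hl.ne_zero) hz0, padicValInt.self hl.one_lt,
      padicValInt.eq_zero_of_not_dvd hzl]
  have hun : ∀ v : HeightOneSpectrum (𝓞 L), Abv v l → v.valuation L ((x : L) - w * θ) = 1 →
      Parq q v δ e := by
    intro v hv h1
    exact parq_of_val hq.ne_zero hd (at_unit he (hθ v hv).2 h1 (hη v hv) (hval v hv))
  have hq1 : ¬ (q : ℤ) ∣ 1 := by
    intro h
    have h2 := Int.le_of_dvd one_pos h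
    have h3 := hq.two_le
    omega
  rcases hxw x w hxw1 with h1 | ⟨v0, hv0, hN0, hw, hlt, hoth⟩
  · refine ⟨e, Or.inl ⟨?_, fun v hv => hun v hv (h1 v hv)⟩⟩
    intro hlD
    have h2 := hnv'.1 e (fun v hv => hun v hv (h1 v hv))
    rw [hvD1 hlD] at hpar
    apply hq1
    have h3 := dvd_sub h2 hpar
    have h4 : padicValRat l (Algebra.norm ℚ δ) - (padicValRat l (Algebra.norm ℚ δ) - ((1 : ℕ) : ℤ)) = 1 := by
      push_cast
      ring
    rwa [h4] at h3
  · obtain ⟨e0, he0⟩ := val_exp (v := v0) hd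
    have hp0 : Parq q v0 δ (-e0) := ⟨0, by rw [he0]; congr 1; ring⟩
    have h2 := hnv'.2 (-e0) e v0 hv0 hN0 hp0 (fun v hv hne => hun v hv (hoth v hv hne))
    by_cases hlD : (l : ℤ) ∣ D
    · refine ⟨e, Or.inr ⟨hlD, v0, hv0, hN0, ?_, fun v hv hne => hun v hv (hoth v hv hne)⟩⟩
      rw [hvD1 hlD] at hpar
      apply parq_congr hp0
      have h3 := dvd_sub hpar h2
      have h4 : padicValRat l (Algebra.norm ℚ δ) - ((1 : ℕ) : ℤ) -
          (padicValRat l (Algebra.norm ℚ δ) - -e0 + e) = -e0 - (e + 1) := by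
        push_cast
        ring
      rwa [h4] at h3
    · refine ⟨e, Or.inl ⟨hlD, fun v hv => ?_⟩⟩
      by_cases hne : v = v0
      · subst hne
        rw [hvD0 hlD] at hpar
        apply parq_congr hp0
        have h3 := dvd_sub hpar h2
        have h4 : padicValRat l (Algebra.norm ℚ δ) - ((0 : ℕ) : ℤ) -
            (padicValRat l (Algebra.norm ℚ δ) - -e0 + e) = -e0 - e := by
          push_cast
          ring
        rwa [h4] at h3
      · exact hun v hv (hoth v hv hne)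

end Pool.Agent.Q65.SE
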