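import Pool.Agent.Q65.SE.SCQ

set_option autoImplicit false

/-! Project SE (helper51), JOB SDQ: the classes of `α` at the primes above `l`. -/

open Polynomial NumberField IsDedekindDomain
open Pool.Agent.Q51.EL (Abv Setup S_ROOT S_RAM)
open Pool.Agent.Q51.SE
open Pool.Agent.Q239.EL (val_exp val_close third ph_of_norm int_coe val_int_le val_int_eq val_int_lt)

namespace Pool.Agent.Q65.SE

theorem sdq : S_SDQ := by
  intro f L _ _ θ hs hn3 q hq2
  have hq0 : q ≠ 0 := by omega
  obtain ⟨B0, hB0, hB0a, hB0'⟩ := Pool.Agent.Q239.EL.root Pool.Agent.Q91.EL.ram f L θ hs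
  obtain ⟨⟨B1, hB1, hB1'⟩, -⟩ := Pool.Agent.Q91.EL.ram L
  refine ⟨B0 * B1, mul_ne_zero hB0 hB1, ?_⟩
  intro t ht l hl' hlB α hnear v0 hv0 hN0 hα0 hα
  have hl : Fact l.Prime := ⟨hl'⟩
  have hl0 : ¬ l ∣ B0 := fun h => hlB (Dvd.dvd.mul_right h _)
  have hl1 : ¬ l ∣ B1 := fun h => hlB (Dvd.dvd.mul_left h _)
  obtain ⟨hθ, hxw⟩ := hB0' l hl.out hl0
  have hsqf := hB1' l hl.out hl1
  have ha : ¬ (l : ℤ) ∣ f.leadingCoeff := fun h => hl0 (by exact_mod_cast h.trans hB0a)
  obtain ⟨x, w, e, g, he, hxw1, hval0⟩ := hnear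
  have hval : ∀ v : HeightOneSpectrum (𝓞 L), Abv v l →
      v.valuation L ((l : L) ^ e * ((x : L) - w * θ) - (α : L) * g ^ q) ≤ WithZero.exp (-(q : ℤ)) := by
    intro v hv
    have := hval0 v hv
    rwa [mul_one] at this
  have hun : ∀ v : HeightOneSpectrum (𝓞 L), Abv v l → v.valuation L ((x : L) - w * θ) = 1 →
      v.valuation L ((α : L) * g ^ q) = WithZero.exp (-(e : ℤ)) := fun v hv h1 =>
    at_unit he (hθ v hv).2 h1 (map_one _) (hval0 v hv)
  have hg0 : ∀ v : HeightOneSpectrum (𝓞 L), Abv v l → v.valuation L ((x : L) - w * θ) = 1 →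
      g ≠ 0 := by
    intro v hv h1
    rintro rfl
    have h2 := hun v hv h1
    rw [zero_pow hq0, mul_zero, map_zero] at h2
    exact WithZero.exp_ne_zero h2.symm
  have hqz : (2 : ℤ) ≤ q := by exact_mod_cast hq2
  have hez : (e : ℤ) < q := by exact_mod_cast he
  -- away from `v0`
  have hoff : ∀ v : HeightOneSpectrum (𝓞 L), Abv v l → v ≠ v0 →
      v.valuation L ((x : L) - w * θ) = 1 → e = 0 ∧ v.valuation L g = 1 := by
    intro v hv hne h1
    have h2 := hun v hv h1
    obtain ⟨m, hm⟩ := val_exp (v := v) (hg0 v hv h1)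
    rw [map_mul, hα v hv hne, one_mul, map_pow, hm, ← WithZero.exp_nsmul, WithZero.exp_inj] at h2
    simp only [smul_eq_mul, nsmul_eq_mul] at h2
    have h3 : (q : ℤ) ∣ e := ⟨-m, by linear_combination h2⟩
    have he0 : (e : ℤ) = 0 := by
      by_contra hne0
      have h4 := Int.le_of_dvd (by omega) h3
      omega
    have hm0 : m = 0 := by
      rw [he0, neg_zero] at h2
      rcases mul_eq_zero.1 h2 with h | h
      · omega
      · exact h
    refine ⟨by exact_mod_cast he0, ?_⟩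
    rw [hm, hm0]
    rfl
  have hlt0 : v0.valuation L ((x : L) - w * θ) ≠ 1 := by
    intro h1
    have h2 := hun v0 hv0 h1
    obtain ⟨m, hm⟩ := val_exp (v := v0) (hg0 v0 hv0 h1)
    rw [map_mul, hα0, map_pow, hm, ← WithZero.exp_nsmul, ← WithZero.exp_add,
      WithZero.exp_inj] at h2
    simp only [smul_eq_mul, nsmul_eq_mul] at h2
    have he1 : e ≠ 0 := by
      rintro rfl
      have h3 : (q : ℤ) ∣ 1 := ⟨m, by push_cast at h2; linear_combination -h2⟩
      have h4 := Int.le_of_dvd one_pos h3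
      omega
    have hph0 := ph_of_norm (l := l) hN0
    have hn3' : 3 ≤ Module.finrank ℚ L := by rw [hs.deg]; exact hn3
    rcases hxw x w hxw1 with h3 | ⟨v1, hv1, hN1, -, hlt1, hoth⟩
    · obtain ⟨v, hv, hne, -⟩ := third hsqf hn3' v0 v0 hph0 hph0
      exact he1 (hoff v hv hne (h3 v hv)).1
    · obtain ⟨v, hv, hne, hne1⟩ := third hsqf hn3' v0 v1 hph0 (ph_of_norm (l := l) hN1)
      exact he1 (hoff v hv hne (hoth v hv hne1)).1
  rcases hxw x w hxw1 with h3 | ⟨v1, hv1, hN1, hw, hlt1, hoth⟩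
  · exact absurd (h3 v0 hv0) hlt0
  have hv01 : v1 = v0 := by
    by_contra hne
    exact hlt0 (hoth v0 hv0 (fun h => hne h.symm))
  subst hv01
  have hcop : IsCoprime (l : ℤ) w :=
    (Nat.prime_iff_prime_int.mp hl.out).coprime_iff_not_dvd.mpr hw
  obtain ⟨a', w', hab⟩ := hcop
  -- `w' * w ≡ 1` modulo `l`
  have hw' : ¬ (l : ℤ) ∣ w' := by
    rintro ⟨z, rfl⟩
    have h4 : (l : ℤ) ∣ 1 := ⟨a' + z * w, by linear_combination -hab⟩
    exact (Nat.prime_iff_prime_int.mp hl.out).not_isUnit (isUnit_of_dvd_one h4)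
  set a := f.leadingCoeff with hadef
  set r : ℤ := w' * (a * x) with hr
  have hrw : (l : ℤ) ∣ w * r - a * x := ⟨-a' * (a * x), by
    rw [hr]
    linear_combination (a * x) * hab⟩
  have hmem : ∀ {v : HeightOneSpectrum (𝓞 L)} {y : 𝓞 L}, v.valuation L (y : L) < 1 →
      y ∈ v.asIdeal := fun h => (HeightOneSpectrum.valuation_lt_one_iff_mem _ _).mp h
  have hcoe : ∀ y z : 𝓞 L, ((y - z : 𝓞 L) : L) = (y : L) - (z : L) := fun y z =>
    map_sub (algebraMap (𝓞 L) L) y z
  have hcoem : ∀ y z : 𝓞 L, ((y * z : 𝓞 L) : L) = (y : L) * (z : L) := fun y z =>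
    map_mul (algebraMap (𝓞 L) L) y z
  have hac : ¬ (l : ℤ) ∣ a * w' := by
    intro h
    rcases (Nat.prime_iff_prime_int.mp hl.out).dvd_or_dvd h with h4 | h4
    · exact ha h4
    · exact hw' h4
  refine ⟨a * w', r, hac, ?_, ?_⟩
  · apply hmem
    rw [hcoe, ht, int_coe]
    have h1 : v1.valuation L ((w : L) * ((a : L) * θ - r)) < 1 := by
      have e1 : (w : L) * ((a : L) * θ - r) =
          -((a : L) * ((x : L) - w * θ) + ((w * r - a * x : ℤ) : L)) := by
        push_cast; ring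
      rw [e1, Valuation.map_neg]
      refine lt_of_le_of_lt (Valuation.map_add _ _ _) (max_lt ?_ (val_int_lt hv1 hrw))
      rw [map_mul, mul_comm]
      exact mul_lt_one_of_lt_of_le hlt1 (val_int_le _)
    rw [map_mul, val_int_eq hv1 hw, one_mul] at h1
    exact h1
  · intro v hv hne
    have hxv := hoth v hv hne
    obtain ⟨he0, hgv⟩ := hoff v hv hne hxv
    have hρ := hval v hv
    rw [he0, pow_zero, one_mul] at hρ
    have hρ1 : v.valuation L ((x : L) - w * θ - (α : L) * g ^ q) < 1 := by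
      refine lt_of_le_of_lt hρ ?_
      rw [← WithZero.exp_zero, WithZero.exp_lt_exp]
      omega
    have hgne := hg0 v hv hxv
    have hgi1 : v.valuation L (g⁻¹) ≤ 1 := by rw [map_inv₀, hgv, inv_one]
    obtain ⟨g', hg'⟩ := HeightOneSpectrum.exists_valuation_sub_lt_of_integer v hgi1 1
    rw [Units.val_one] at hg'
    have hg'' : v.valuation L ((g' : L) - g⁻¹) < 1 := hg'
    refine ⟨g', ?_⟩
    apply hmem
    rw [hcoe, hcoem, hcoem, hcoe, ht, int_coe, int_coe]
    have hg2 : ((g' ^ q : 𝓞 L) : L) = (g' : L) ^ q := map_pow (algebraMap (𝓞 L) L) g' q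
    rw [hg2]
    have hal : v.valuation L (α : L) = 1 := hα v hv hne
    have hale : v.valuation L (a : L) ≤ 1 := val_int_le _
    have hwle : v.valuation L (w' : L) ≤ 1 := val_int_le _
    have htv : v.valuation L ((r : L) - (a : L) * θ) ≤ 1 := by
      refine (Valuation.map_sub _ _ _).trans (max_le (val_int_le r) ?_)
      rw [map_mul]
      exact mul_le_one' hale (hθ v hv).1
    have hg'le : v.valuation L (g' : L) ≤ 1 := HeightOneSpectrum.valuation_le_one v g'
    have hθ1 : v.valuation L θ ≤ 1 := (hθ v hv).1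
    have hgiq : v.valuation L (g⁻¹ ^ q) ≤ 1 := by
      rw [map_pow]
      exact pow_le_one' hgi1 q
    -- the difference of the powers
    obtain ⟨s, hs1, hs2⟩ : ∃ s : L, (g' : L) ^ q - g⁻¹ ^ q = ((g' : L) - g⁻¹) * s ∧
        v.valuation L s ≤ 1 := by
      refine ⟨∑ i ∈ Finset.range q, (g' : L) ^ i * (g⁻¹) ^ (q - 1 - i), ?_, ?_⟩
      · rw [mul_comm]
        exact (geom_sum₂_mul (g' : L) g⁻¹ q).symm
      · refine Valuation.map_sum_le _ fun i _ => ?_
        rw [map_mul, map_pow, map_pow]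
        exact mul_le_one' (pow_le_one' hg'le i) (pow_le_one' hgi1 _)
    -- the small terms
    have t1 : v.valuation L ((a : L) * w' * g⁻¹ ^ q * ((x : L) - w * θ - (α : L) * g ^ q)) < 1 := by
      rw [map_mul, mul_comm]
      refine mul_lt_one_of_lt_of_le hρ1 ?_
      rw [map_mul, map_mul]
      exact mul_le_one' (mul_le_one' hale hwle) hgiq
    have t2 : v.valuation L ((((l : ℤ) * a' : ℤ) : L) * ((a : L) * θ) * g⁻¹ ^ q) < 1 := by
      rw [map_mul, map_mul, mul_assoc]
      refine mul_lt_one_of_lt_of_le (val_int_lt hv (Dvd.intro _ rfl)) ?_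
      rw [map_mul]
      exact mul_le_one' (mul_le_one' hale hθ1) hgiq
    have t3 : v.valuation L (((g' : L) - g⁻¹) * (s * ((r : L) - (a : L) * θ))) < 1 := by
      rw [map_mul]
      refine mul_lt_one_of_lt_of_le hg'' ?_
      rw [map_mul]
      exact mul_le_one' hs2 htv
    have e2 : ((a * w' : ℤ) : L) * (α : L) - ((r : L) - (a : L) * θ) * (g' : L) ^ q =
        -(((a : L) * w' * g⁻¹ ^ q * ((x : L) - w * θ - (α : L) * g ^ q) +
        -((((l : ℤ) * a' : ℤ) : L) * ((a : L) * θ) * g⁻¹ ^ q)) +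
        (((g' : L) - g⁻¹) * (s * ((r : L) - (a : L) * θ)))) := by
      have hgi : g ^ q * g⁻¹ ^ q = 1 := by
        rw [← mul_pow, mul_inv_cancel₀ hgne, one_pow]
      have hab' : (a' : L) * l + w' * w = 1 := by exact_mod_cast congrArg (Int.cast : ℤ → L) hab
      have hr' : (r : L) = w' * (a * x) := by
        rw [hr]
        push_cast
        ring
      have h4 : (g' : L) ^ q = g⁻¹ ^ q + ((g' : L) - g⁻¹) * s := by
        rw [← hs1]
        ring
      rw [h4, hr']
      push_cast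
      linear_combination (-(a : L) * w' * α) * hgi + ((a : L) * θ * g⁻¹ ^ q) * (-hab')
    rw [e2, Valuation.map_neg]
    refine lt_of_le_of_lt (Valuation.map_add _ _ _) (max_lt ?_ t3)
    refine lt_of_le_of_lt (Valuation.map_add _ _ _) (max_lt t1 ?_)
    rw [Valuation.map_neg]
    exact t2

end Pool.Agent.Q65.SE
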